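import Pool.Agent.ATT.Stmts
import Pool.Agent.ANR.Stmts

/-!
# Tank ATT, row NET: the network of a configuration
-/

set_option autoImplicit false

open scoped ENNReal BigOperators Topology NNReal Matrix

noncomputable section

namespace Pool.Agent.ATT.H84

open Pool.Agent.KIL (gam nn)
open Pool.Agent.ANP (Cfg)

/-- row NET -/
theorem net (geq : ANR.GeqStmt) : NetStmt := by
  intro X _ _ Hm η e0 T hsym he0 hη hmb
  have hN : ANR.Net (hN Hm T) (ka η e0 T) := by
    refine ⟨?_, ?_⟩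
    · intro x y
      unfold hN
      by_cases h : x = y
      · rw [h]
      · rw [if_neg h, if_neg (Ne.symm h), hsym x y]
    · intro x
      unfold ka
      split_ifs with h
      · exact he0
      · have h1 : 0 < T.s x := pos_iff_ne_zero.2 h
        have h2 : (0 : ℝ) < (T.s x : ℝ) := by exact_mod_cast h1
        have h3 := mul_pos h2 (hmb x h1)
        linarith
  obtain ⟨g1, g2, g3, -, -⟩ := geq X (ATT.hN Hm T) (ka η e0 T) hN
  refine ⟨hN, g2, g3, ?_⟩
  intro b
  by_contra hcon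
  rw [not_or] at hcon
  obtain ⟨h1, h2⟩ := hcon
  have hnn : ∀ v ∈ Finset.univ.erase b, 0 ≤ nn (ka η e0 T) (GT Hm η e0 T) b v := fun v _ =>
    mul_nonneg (hN.pos v).le (by positivity)
  have h0 : gam (ka η e0 T) (GT Hm η e0 T) b = 0 :=
    le_antisymm (not_lt.1 h2) (Finset.sum_nonneg hnn)
  have hz : ∀ v, v ≠ b → ANR.Gr (ATT.hN Hm T) (ka η e0 T) v b = 0 := by
    intro v hv
    have h3 := (Finset.sum_eq_zero_iff_of_nonneg hnn).1 h0 v
      (Finset.mem_erase.2 ⟨hv, Finset.mem_univ v⟩)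
    have h4 : ka η e0 T v * ‖GT Hm η e0 T v b‖ ^ 2 = 0 := h3
    rcases mul_eq_zero.1 h4 with h5 | h5
    · exact absurd h5 (hN.pos v).ne'
    · exact norm_eq_zero.1 ((pow_eq_zero_iff two_ne_zero).1 h5)
  have hop : ∀ x, ANR.opv (ATT.hN Hm T) (ka η e0 T)
      (fun z => ANR.Gr (ATT.hN Hm T) (ka η e0 T) z b) x =
      (ATT.hN Hm T x b : ℂ) * ANR.Gr (ATT.hN Hm T) (ka η e0 T) b b -
        Complex.I * (ka η e0 T x : ℂ) * ANR.Gr (ATT.hN Hm T) (ka η e0 T) x b := by
    intro x
    unfold ANR.opv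
    rw [Finset.sum_eq_single b]
    · intro v _ hv
      show _ * ANR.Gr (ATT.hN Hm T) (ka η e0 T) v b = 0
      rw [hz v hv, mul_zero]
    · intro h
      exact absurd (Finset.mem_univ b) h
  push Not at h1
  obtain ⟨v, hv, hvb⟩ := h1
  have h3 := g1 v b
  rw [hop, hz v hv, mul_zero, sub_zero, if_neg hv] at h3
  have h4 : ANR.Gr (ATT.hN Hm T) (ka η e0 T) b b = 0 := by
    rcases mul_eq_zero.1 h3 with h5 | h5
    · exact absurd (Complex.ofReal_eq_zero.1 h5) hvb
    · exact h5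
  have h6 := g1 b b
  rw [hop, h4, mul_zero, mul_zero, sub_zero, if_pos rfl] at h6
  exact zero_ne_one h6

end Pool.Agent.ATT.H84
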